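import Pool.Agent.Helper85.QT.St1

/-!
# Project QT (MP_d112a4_gt): module SB5 (geodesics with endpoints in the limit set)
-/

set_option autoImplicit false

open MeasureTheory Matrix Set Topology
open scoped ENNReal ComplexConjugate

namespace Pool.Agent.Helper52.QT

open Pool.Agent.Helper85.QT Pool.Agent.Helper86.QA

private lemma gp_re (a b : ℂ) (u : ℝ) : (gp a b u).1.re =
    (Real.exp u * a.re + Real.exp (-u) * b.re) / (Real.exp u + Real.exp (-u)) := by
  unfold gp
  rw [Complex.div_ofReal_re, Complex.add_re, Complex.re_ofReal_mul, Complex.re_ofReal_mul]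

private lemma gp_im (a b : ℂ) (u : ℝ) : (gp a b u).1.im =
    (Real.exp u * a.im + Real.exp (-u) * b.im) / (Real.exp u + Real.exp (-u)) := by
  unfold gp
  rw [Complex.div_ofReal_im, Complex.add_im, Complex.im_ofReal_mul, Complex.im_ofReal_mul]

private lemma gp_snd (a b : ℂ) (u : ℝ) : (gp a b u).2 =
    ‖a - b‖ / (Real.exp u + Real.exp (-u)) := rfl

private lemma nsq (z : ℂ) : ‖z‖ ^ 2 = z.re ^ 2 + z.im ^ 2 := by
  rw [← Complex.normSq_eq_norm_sq, Complex.normSq_apply]; ring

private lemma exps (u : ℝ) : 0 < Real.exp u ∧ 0 < Real.exp (-u) ∧ Real.exp u * Real.exp (-u) = 1 := by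
  refine ⟨Real.exp_pos _, Real.exp_pos _, ?_⟩
  rw [← Real.exp_add, add_neg_cancel, Real.exp_zero]

private lemma qf_eq (H : Mat) (hH : H.IsHermitian) (ξ : ℂ) : qf H ξ =
    (H 0 0).re * (ξ.re ^ 2 + ξ.im ^ 2) + 2 * (ξ.re * (H 0 1).re + ξ.im * (H 0 1).im) +
      (H 1 1).re := by
  have h1 : H 1 0 = conj (H 0 1) := by
    have := hH.apply 1 0
    rw [← this]
    rfl
  have h0 : (H 0 0).im = 0 := by
    have h2 := hH.apply 0 0
    have h3 := congrArg Complex.im h2
    have h4 : (star (H 0 0)).im = - (H 0 0).im := Complex.conj_im _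
    rw [h4] at h3
    linarith
  unfold qf
  rw [h1]
  simp only [Complex.add_re, Complex.mul_re, Complex.mul_im, Complex.conj_re, Complex.conj_im, h0]
  ring

theorem hSB5 (_hCHI : Pool.Agent.Helper86.QA.StCHI) (hSB0 : Pool.Agent.Helper85.QT.StSB0)
    (_hSB1 : Pool.Agent.Helper85.QT.StSB1) : Pool.Agent.Helper85.QT.StSB5 := by
  have hup : ∀ (a b : ℂ) (u : ℝ), a ≠ b → gp a b u ∈ up := by
    intro a b u hab
    show 0 < (gp a b u).2
    rw [gp_snd]
    have h1 : 0 < ‖a - b‖ := norm_pos_iff.2 (sub_ne_zero.2 hab)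
    positivity
  refine ⟨fun a b u u' hab => ⟨hup a b u hab, ?_⟩, ?_⟩
  · obtain ⟨hp, hq, hpq⟩ := exps u
    obtain ⟨hp', hq', hpq'⟩ := exps u'
    have hl : 0 < ‖a - b‖ := norm_pos_iff.2 (sub_ne_zero.2 hab)
    have hc : Real.cosh (u - u') =
        (Real.exp u * Real.exp (-u') + Real.exp (-u) * Real.exp u') / 2 := by
      rw [Real.cosh_eq, ← Real.exp_add, ← Real.exp_add]
      congr 3 <;> ring_nf
    have hl2 : ‖a - b‖ ^ 2 = (a.re - b.re) ^ 2 + (a.im - b.im) ^ 2 := by
      rw [nsq, Complex.sub_re, Complex.sub_im]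
    have hd : ‖(gp a b u).1 - (gp a b u').1‖ ^ 2 =
        (Real.exp u * Real.exp (-u') - Real.exp u' * Real.exp (-u)) ^ 2 * ‖a - b‖ ^ 2 /
          ((Real.exp u + Real.exp (-u)) * (Real.exp u' + Real.exp (-u'))) ^ 2 := by
      rw [nsq, Complex.sub_re, Complex.sub_im, gp_re, gp_re, gp_im, gp_im, hl2]
      generalize Real.exp u = p at *
      generalize Real.exp (-u) = q at *
      generalize Real.exp u' = p' at *
      generalize Real.exp (-u') = q' at *
      have hs : p + q ≠ 0 := by positivity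
      have hs' : p' + q' ≠ 0 := by positivity
      field_simp
      ring
    rw [hc, ch, hd, gp_snd, gp_snd]
    generalize Real.exp u = p at *
    generalize Real.exp (-u) = q at *
    generalize Real.exp u' = p' at *
    generalize Real.exp (-u') = q' at *
    generalize ‖a - b‖ = l at *
    have hs : p + q ≠ 0 := by positivity
    have hs' : p' + q' ≠ 0 := by positivity
    field_simp
    linear_combination (-(p' ^ 2) - q' ^ 2 - 4 * p' * q' + 2) * hpq +
      (-(p ^ 2) - q ^ 2 - 2) * hpq'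
  · intro Γ _ ρ A B hKD a ha b hb hab u
    refine Real.sSup_nonpos ?_
    rintro _ ⟨H, ⟨hH, -, -, hq⟩, rfl⟩
    have hx := hup a b u hab
    have hx2 : 0 < (gp a b u).2 := hx
    have h1 := hSB0.1 H (gp a b u) hH hx
    have h2 : 0 ≤ qf H (gp a b u).1 + (H 0 0).re * (gp a b u).2 ^ 2 := by
      have ha' := hq a ha
      have hb' := hq b hb
      obtain ⟨hp, hq0, hpq⟩ := exps u
      have hl2 : ‖a - b‖ ^ 2 = (a.re - b.re) ^ 2 + (a.im - b.im) ^ 2 := by
        rw [nsq, Complex.sub_re, Complex.sub_im]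
      have key : qf H (gp a b u).1 + (H 0 0).re * (gp a b u).2 ^ 2 =
          (Real.exp u * qf H a + Real.exp (-u) * qf H b) / (Real.exp u + Real.exp (-u)) := by
        rw [qf_eq H hH, qf_eq H hH, qf_eq H hH, gp_re, gp_im, gp_snd]
        simp only [div_pow, hl2]
        generalize Real.exp u = p at *
        generalize Real.exp (-u) = q at *
        have hs : p + q ≠ 0 := by positivity
        field_simp
        linear_combination (-(H 0 0).re * ((a.re - b.re) ^ 2 + (a.im - b.im) ^ 2)) * hpq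
      rw [key]
      positivity
    by_contra hcon
    have h3 : 0 < hf H (gp a b u) := not_le.1 hcon
    have h4 : 0 < 2 * (gp a b u).2 * hf H (gp a b u) := by positivity
    linarith

end Pool.Agent.Helper52.QT
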